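import Pool.Agent.W_52423f_h70.EbMain

set_option autoImplicit false

/-! Let `A` be a simple abelian variety over `ℚ` which has an elliptic curve `V` among its factors over
the algebraic numbers, with or without complex multiplication.  Let `M` be a number field over which
everything is defined, `N` the rank of `Hom(A, V)`.  A basis `f_1, ..., f_N` of `Hom(A, V)` maps a
subgroup of `A(ℚ)` of rank `m` onto a subgroup `L` of `V(M)^N` as in the theorem.  The `p`-adic closure
has `ℤ_p`-rank `r ≥ m N / (N + 2 m)`, hence `r = m` if `N > 2 m (m - 1)`. -/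

open scoped Classical

namespace Pool.Agent.Results.MP_52423f_nt.EllipticFactor

open Pool.Agent.PTwist PCL WeierstrassCurve WeierstrassCurve.Affine

theorem result (p : ℕ) [Fact p.Prime] {M : Type} [Field M] [NumberField M]
    (V : WeierstrassCurve M) [V.IsElliptic] {O : Type} [CommRing O] [IsDomain O] [CharZero O]
    (A : EndAct V O) (σ : O ≃+* O) (hσ : ∀ a, σ (σ a) = a)
    (hfix : ∀ a, σ a = a → ∃ n : ℤ, a = n) (ι : M →+* ℂ_[p]) {N m : ℕ}
    (L : AddSubgroup (Fin N → V.toAffine.Point)) (hL : SimplePos L) (hsym : ConjSym A σ L)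
    (hfg : L.FG) (hm : Module.finrank ℤ L = m) :
    ∃ r : ℕ, (∀ r' : ℕ, HasRank (fun _ : Fin N => V.map ι) p r'
        (clos (fun _ : Fin N => V.map ι)
          ((fun P i => pmap V ι (P i)) '' (L : Set (Fin N → V.toAffine.Point)))) ↔ r' = r) ∧
      r ≤ m ∧ m * N ≤ r * (N + 2 * m) ∧ (2 * m * (m - 1) < N → r = m) :=
  main_univ' (p := p) V A σ hσ hfix ι L hL hsym hfg hm

end Pool.Agent.Results.MP_52423f_nt.EllipticFactor
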